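import Mathlib
import Pool.Agent.H220.F4.Stm

/-!
# S_grow: growth of Gram determinants
-/

set_option autoImplicit false

open MeasureTheory Metric Set Filter Topology Matrix
open scoped ContDiff ComplexOrder

namespace Pool.Agent.H671.F4

open Pool.Agent.H805R2 Pool.Agent.H805R2.Gram Pool.Agent.H220.F4

section

variable (L M : ℕ) (β : ℝ)

/-- the weights as a measure -/
noncomputable def nu : Measure (Fin L × Fin M) :=
  ∑ x : Fin L × Fin M, ENNReal.ofReal (wt β x.2) • Measure.dirac x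

instance : IsFiniteMeasure (nu L M β) := by
  refine ⟨?_⟩
  unfold nu
  rw [Measure.finsetSum_apply]
  refine ENNReal.sum_lt_top.2 fun x _ => ?_
  rw [Measure.smul_apply, Measure.dirac_apply_of_mem (mem_univ _), smul_eq_mul, mul_one]
  exact ENNReal.ofReal_lt_top

lemma nu_real (hw : ∀ (β : ℝ) (a : ℕ), 0 < wt β a) (y : Fin L × Fin M) :
    (nu L M β).real {y} = wt β y.2 := by
  unfold nu Measure.real
  rw [Measure.finsetSum_apply, Finset.sum_eq_single y]
  · rw [Measure.smul_apply, Measure.dirac_apply_of_mem (mem_singleton _), smul_eq_mul, mul_one,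
      ENNReal.toReal_ofReal (hw _ _).le]
  · intro x _ hxy
    rw [Measure.smul_apply, Measure.dirac_apply' _ (measurableSet_singleton y),
      indicator_of_notMem (by simpa using hxy), smul_zero]
  · intro h
    exact absurd (Finset.mem_univ _) h

lemma me_inl : MeasurableEmbedding (Sum.inl : Cn 2 → Cn 2 ⊕ (Fin L × Fin M)) :=
  ⟨Sum.inl_injective, measurable_inl, fun _ hs => measurableSet_inl_image.2 hs⟩

lemma me_inr : MeasurableEmbedding (Sum.inr : (Fin L × Fin M) → Cn 2 ⊕ (Fin L × Fin M)) :=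
  ⟨Sum.inr_injective, measurable_inr, fun _ hs => measurableSet_inr_image.2 hs⟩

/-- the measure on the disjoint union -/
noncomputable def mx : Measure (Cn 2 ⊕ (Fin L × Fin M)) :=
  Measure.map Sum.inl (volume.restrict Om) + Measure.map Sum.inr (nu L M β)

instance : IsFiniteMeasure (volume.restrict Om : Measure (Cn 2)) :=
  ⟨by rw [Measure.restrict_apply_univ]; exact Om_bounded.measure_lt_top⟩

instance : IsFiniteMeasure (mx L M β) := by unfold mx; infer_instance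

/-- integrals -/
lemma int_mx (hw : ∀ (β : ℝ) (a : ℕ), 0 < wt β a) {E : Type} [NormedAddCommGroup E]
    [NormedSpace ℝ E] [CompleteSpace E] (f : Cn 2 ⊕ (Fin L × Fin M) → E)
    (hf : IntegrableOn (fun z => f (Sum.inl z)) Om) :
    ∫ z, f z ∂(mx L M β) = (∫ z in Om, f (Sum.inl z)) + ∑ x, wt β x.2 • f (Sum.inr x) := by
  unfold mx
  rw [integral_add_measure, (me_inl L M).integral_map, (me_inr L M).integral_map]
  · congr 1
    rw [integral_fintype Integrable.of_finite]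
    exact Finset.sum_congr rfl fun x _ => by rw [nu_real L M β hw]
  · exact (me_inl L M).integrable_map_iff.2 hf
  · exact (me_inr L M).integrable_map_iff.2 Integrable.of_finite

/-- the functions on the disjoint union -/
noncomputable def mm : Cn 2 ⊕ (Fin L × Fin M) → (Fin L × Fin M) → ℂ :=
  Sum.elim (fun z => mon L M z) (fun x => Pi.single x 1)

/-- the weight on the disjoint union -/
noncomputable def vv (Ψ : Cn 2 → ℝ) : Cn 2 ⊕ (Fin L × Fin M) → ℝ := Sum.elim Ψ (fun _ => 0)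

lemma mon_cont (x : Fin L × Fin M) : Continuous fun z => mon L M z x := by
  unfold mon
  fun_prop

lemma mon_le {z : Cn 2} (hz : z ∈ Om) (x : Fin L × Fin M) : ‖mon L M z x‖ ≤ 1 := by
  unfold mon
  rw [norm_mul, norm_pow, norm_pow]
  exact mul_le_one₀ (pow_le_one₀ (norm_nonneg _) hz.1.le) (by positivity)
    (pow_le_one₀ (norm_nonneg _) hz.2.le)

lemma mon_ae : ∀ᵐ z ∂(volume.restrict Om : Measure (Cn 2)), ∀ x, ‖mon L M z x‖ ≤ 1 := by
  rw [ae_restrict_iff' isOpen_Om.measurableSet]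
  exact Eventually.of_forall fun z hz x => mon_le L M hz x

lemma mm_meas (x : Fin L × Fin M) : Measurable fun z => mm L M z x := by
  refine measurable_fun_sum ?_ ?_
  · exact (mon_cont L M x).measurable
  · exact measurable_of_finite _

lemma mm_ae : ∀ᵐ z ∂(mx L M β), ∀ x, ‖mm L M z x‖ ≤ 1 := by
  unfold mx
  rw [ae_add_measure_iff]
  constructor
  · rw [(me_inl L M).ae_map_iff]
    exact mon_ae L M
  · rw [(me_inr L M).ae_map_iff]
    refine Eventually.of_forall fun x y => ?_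
    unfold mm
    rw [Sum.elim_inr]
    by_cases h : y = x
    · subst h; simp
    · rw [Pi.single_eq_of_ne h]; simp

lemma vv_meas {Ψ : Cn 2 → ℝ} (hΨ : Continuous Ψ) : Measurable (vv L M Ψ) := by
  refine measurable_fun_sum ?_ ?_
  · exact hΨ.measurable
  · exact measurable_of_finite _

lemma vv_bd {Ψ : Cn 2 → ℝ} {V : ℝ} (hV : ∀ z, |Ψ z| ≤ V) (z : Cn 2 ⊕ (Fin L × Fin M)) :
    |vv L M Ψ z| ≤ V := by
  have hV0 : 0 ≤ V := (abs_nonneg _).trans (hV 0)
  rcases z with z | x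
  · exact hV z
  · simpa [vv] using hV0

/-- the Gram matrix on the disjoint union -/
lemma gram_mx (hw : ∀ (β : ℝ) (a : ℕ), 0 < wt β a) {Ψ : Cn 2 → ℝ} (hΨ : Continuous Ψ) {V : ℝ}
    (hV : ∀ z, |Ψ z| ≤ V) (σ : ℝ) :
    Gram.gram (mx L M β) (mm L M) (fun z => Real.exp (-2 * σ * vv L M Ψ z)) =
      ND L M β + GS L M Om Ψ σ := by
  ext x y
  have hi := gram_entry_integrable (volume.restrict Om) (mon L M)
    (fun z => Real.exp (-2 * σ * Ψ z)) (fun α => (mon_cont L M α).measurable) (mon_ae L M)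
    (by fun_prop) _ (exp_bd Ψ V σ hV) x y
  simp only [Gram.gram, GS, ND, Matrix.add_apply, Matrix.of_apply]
  rw [int_mx L M β hw (fun z => star (mm L M z x) * mm L M z y *
    ((Real.exp (-2 * σ * vv L M Ψ z) : ℝ) : ℂ)) hi, add_comm]
  congr 1
  simp only [mm, vv, Sum.elim_inr, mul_zero, Real.exp_zero, Complex.ofReal_one, mul_one,
    Matrix.diagonal_apply]
  rw [Finset.sum_eq_single x]
  · rw [Pi.single_eq_same]
    by_cases h : x = y
    · subst h; simp
    · rw [if_neg h, Pi.single_eq_of_ne (Ne.symm h)]; simp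
  · intro z _ hz
    rw [Pi.single_eq_of_ne (Ne.symm hz)]
    simp
  · intro h
    exact absurd (Finset.mem_univ _) h

lemma qf_add {ι : Type} [Fintype ι] (A B : Matrix ι ι ℂ) (c : ι → ℂ) :
    qf (A + B) c = qf A c + qf B c := by
  unfold qf
  rw [Matrix.add_mulVec, dotProduct_add]

lemma qf_ND (c : Fin L × Fin M → ℂ) :
    qf (ND L M β) c = ((∑ x, wt β x.2 * ‖c x‖ ^ 2 : ℝ) : ℂ) := by
  unfold qf ND
  simp only [dotProduct, Matrix.mulVec_diagonal, Pi.star_apply]
  push_cast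
  refine Finset.sum_congr rfl fun x _ => ?_
  have : star (c x) * c x = ((‖c x‖ ^ 2 : ℝ) : ℂ) := by
    rw [Complex.star_def, ← Complex.normSq_eq_conj_mul_self, Complex.normSq_eq_norm_sq]
  push_cast at this
  rw [← this]
  ring

/-- the polynomials -/
noncomputable def FF (c : Fin L × Fin M → ℂ) (z : Cn 2) : ℂ := ∑ x, c x * mon L M z x

lemma FF_cont (c : Fin L × Fin M → ℂ) : Continuous (FF L M c) := by
  unfold FF
  exact continuous_finsetSum _ fun x _ => continuous_const.mul (mon_cont L M x)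

lemma FF_line (c : Fin L × Fin M → ℂ) (z ζ : Cn 2) :
    Differentiable ℂ fun w : ℂ => FF L M c (z + w • ζ) := by
  unfold FF mon
  simp only [PiLp.add_apply, PiLp.smul_apply, smul_eq_mul]
  fun_prop

lemma qf_GS {Ψ : Cn 2 → ℝ} (hΨ : Continuous Ψ) {V : ℝ}
    (hV : ∀ z, |Ψ z| ≤ V) (σ : ℝ) (c : Fin L × Fin M → ℂ) :
    qf (GS L M Om Ψ σ) c = ((∫ z in Om, ‖FF L M c z‖ ^ 2 * Real.exp (-2 * σ * Ψ z) : ℝ) : ℂ) ∧
    IntegrableOn (fun z => ‖FF L M c z‖ ^ 2 * Real.exp (-2 * σ * Ψ z)) Om := by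
  have h1 := qf_gram (volume.restrict Om) (mon L M) (fun z => Real.exp (-2 * σ * Ψ z))
    (fun α => (mon_cont L M α).measurable) (mon_ae L M) (by fun_prop) _ (exp_bd Ψ V σ hV) c
  have h2 := qf_integrable (volume.restrict Om) (mon L M) (fun z => Real.exp (-2 * σ * Ψ z))
    (fun α => (mon_cont L M α).measurable) (mon_ae L M) (by fun_prop) _ (exp_bd Ψ V σ hV) c
  exact ⟨h1, h2⟩

lemma ND_posDef (hw : ∀ (β : ℝ) (a : ℕ), 0 < wt β a) : (ND L M β).PosDef := by
  unfold ND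
  rw [Matrix.posDef_diagonal_iff]
  intro x
  exact_mod_cast hw β x.2

lemma GS_psd {Ψ : Cn 2 → ℝ} (hΨ : Continuous Ψ) {V : ℝ}
    (hV : ∀ z, |Ψ z| ≤ V) (σ : ℝ) : (GS L M Om Ψ σ).PosSemidef := by
  refine Matrix.PosSemidef.of_dotProduct_mulVec_nonneg ?_ fun c => ?_
  · exact gram_isHermitian _ _ _
  · have h1 := (qf_GS L M hΨ hV σ c).1
    unfold qf at h1
    rw [h1]
    have : 0 ≤ ∫ z in Om, ‖FF L M c z‖ ^ 2 * Real.exp (-2 * σ * Ψ z) :=
      integral_nonneg fun z => by positivity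
    exact_mod_cast this

lemma G_posDef (hw : ∀ (β : ℝ) (a : ℕ), 0 < wt β a) {Ψ : Cn 2 → ℝ} (hΨ : Continuous Ψ) {V : ℝ}
    (hV : ∀ z, |Ψ z| ≤ V) (σ : ℝ) : (ND L M β + GS L M Om Ψ σ).PosDef :=
  (ND_posDef L M β hw).add_posSemidef (GS_psd L M hΨ hV σ)

lemma qf_G {Ψ : Cn 2 → ℝ} (hΨ : Continuous Ψ) {V : ℝ}
    (hV : ∀ z, |Ψ z| ≤ V) (σ : ℝ) (c : Fin L × Fin M → ℂ) :
    (qf (ND L M β + GS L M Om Ψ σ) c).re = (∑ x, wt β x.2 * ‖c x‖ ^ 2) +
      ∫ z in Om, ‖FF L M c z‖ ^ 2 * Real.exp (-2 * σ * Ψ z) := by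
  rw [qf_add, qf_ND, (qf_GS L M hΨ hV σ c).1, Complex.add_re, Complex.ofReal_re, Complex.ofReal_re]

/-- crude growth bound -/
lemma crude (hw : ∀ (β : ℝ) (a : ℕ), 0 < wt β a) {Ψ : Cn 2 → ℝ} (hΨ : Continuous Ψ) {V : ℝ}
    (hV : ∀ z, |Ψ z| ≤ V) (σ T : ℝ) (hT : 0 ≤ T) (hTu : ∀ z ∈ Om, -T ≤ Ψ z) :
    Real.log (ND L M β + GS L M Om Ψ σ).det.re -
      Real.log (ND L M β + GS L M Om Ψ (σ - 1)).det.re ≤ 2 * T * (L * M) := by
  have hpd := G_posDef L M β hw hΨ hV σ
  rw [← gram_mx L M β hw hΨ hV] at hpd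
  have h := step (mx L M β) (mm L M) (vv L M Ψ) (mm_meas L M) (mm_ae L M β) (vv_meas L M hΨ) V
    (vv_bd L M hV) σ hpd ∅ MeasurableSet.empty 0 T le_rfl hT (fun _ => 0) (fun _ => le_rfl)
    (by simp) (by simp)
    (by
      unfold mx
      rw [ae_add_measure_iff]
      constructor
      · rw [(me_inl L M).ae_map_iff, ae_restrict_iff' isOpen_Om.measurableSet]
        exact Eventually.of_forall fun z hz _ => hTu z hz
      · rw [(me_inr L M).ae_map_iff]
        refine Eventually.of_forall fun x _ => ?_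
        simp only [vv, Sum.elim_inr]
        linarith) (by simp)
  rw [gram_mx L M β hw hΨ hV, gram_mx L M β hw hΨ hV, Fintype.card_prod, Fintype.card_fin,
    Fintype.card_fin, mul_zero, zero_mul, zero_add] at h
  push_cast at h
  exact h

/-- sharp growth bound -/
lemma sharp {Ψ : Cn 2 → ℝ} (hΨ : ContDiff ℝ ∞ Ψ) {V : ℝ}
    (hV : ∀ z, |Ψ z| ≤ V) {C : Set (Cn 2)} (hC : IsCompact C) (hCU : C ⊆ Om)
    (hpsh : ∀ z ∈ C, (hess Ψ z).PosSemidef) (t τ : ℝ) (ht : 0 ≤ t) (hτ : 0 ≤ τ)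
    (htC : ∀ z ∈ C, -t ≤ Ψ z) (hτC : ∀ z ∈ Om, z ∉ C → -τ ≤ Ψ z) (κ : ℝ) (hκ : 0 < κ) :
    ∃ σ0 > 0, ∀ σ ≥ σ0, ∀ (L M : ℕ) (β : ℝ), (∀ (β : ℝ) (a : ℕ), 0 < wt β a) →
    Real.log (ND L M β + GS L M Om Ψ σ).det.re -
      Real.log (ND L M β + GS L M Om Ψ (σ - 1)).det.re ≤
      2 * t * (σ ^ 2 * ((2 / Real.pi) ^ 2 * (∫ z in C, dt Ψ z) +
        κ * (volume : Measure (Cn 2)).real C)) + 2 * τ * (L * M) := by
  have hΨ2 : ContDiff ℝ 2 Ψ := by exact_mod_cast contDiff_infty.1 hΨ 2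
  have hΨc : Continuous Ψ := hΨ.continuous
  obtain ⟨σ0, hσ0, H⟩ := local_bergman hΨ2 isOpen_Om hC hCU hpsh κ hκ
  refine ⟨σ0, hσ0, ?_⟩
  intro σ hσ L M β hw
  have hσp : 0 < σ := lt_of_lt_of_le hσ0 hσ
  have hpd := G_posDef L M β hw hΨc hV σ
  rw [← gram_mx L M β hw hΨc hV] at hpd
  have hdetc : Continuous (dt Ψ) := dt_continuous hΨ
  set Kf : Cn 2 → ℝ := fun z => σ ^ 2 * (|(2 / Real.pi) ^ 2 * dt Ψ z| + κ) with hKf
  have hKc : Continuous Kf := by fun_prop
  have hdet0 : ∀ z ∈ C, 0 ≤ dt Ψ z := fun z hz => dt_nonneg (hpsh z hz)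
  have hKC : ∀ z ∈ C, Kf z = σ ^ 2 * ((2 / Real.pi) ^ 2 * dt Ψ z + κ) := by
    intro z hz
    simp only [hKf]
    rw [abs_of_nonneg]
    have := hdet0 z hz
    have := Real.pi_pos
    positivity
  -- the function on the disjoint union
  set KX : Cn 2 ⊕ (Fin L × Fin M) → ℝ :=
    Sum.elim (C.indicator Kf) (fun _ => 0) with hKX
  have hKi : Integrable (C.indicator Kf) (volume.restrict Om) :=
    ((hKc.continuousOn.integrableOn_compact hC).integrable_indicator hC.measurableSet).integrableOn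
  have hKXi : Integrable KX (mx L M β) := by
    unfold mx
    refine Integrable.add_measure ?_ ?_
    · exact (me_inl L M).integrable_map_iff.2 hKi
    · exact (me_inr L M).integrable_map_iff.2 Integrable.of_finite
  have hKXint : ∫ z, KX z ∂(mx L M β) = ∫ z in C, Kf z := by
    rw [int_mx L M β hw KX hKi]
    simp only [hKX, Sum.elim_inl, Sum.elim_inr, smul_zero, Finset.sum_const_zero, add_zero]
    rw [integral_indicator hC.measurableSet, Measure.restrict_restrict hC.measurableSet,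
      inter_eq_left.2 hCU]
  have h := step (mx L M β) (mm L M) (vv L M Ψ) (mm_meas L M) (mm_ae L M β) (vv_meas L M hΨc) V
    (vv_bd L M hV) σ hpd (Sum.inl '' C) (measurableSet_inl_image.2 hC.measurableSet) t τ ht hτ KX
    (by
      rintro (z | x)
      · simp only [hKX, Sum.elim_inl]
        exact indicator_nonneg (fun z _ => by positivity) z
      · simp [hKX])
    hKXi.integrableOn
    (by
      rintro _ ⟨z, hz, rfl⟩
      exact htC z hz)
    (by
      unfold mx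
      rw [ae_add_measure_iff]
      constructor
      · rw [(me_inl L M).ae_map_iff, ae_restrict_iff' isOpen_Om.measurableSet]
        refine Eventually.of_forall fun z hz hz' => ?_
        exact hτC z hz fun h => hz' ⟨z, h, rfl⟩
      · rw [(me_inr L M).ae_map_iff]
        refine Eventually.of_forall fun x _ => ?_
        simp only [vv, Sum.elim_inr]
        linarith)
    (by
      rintro _ ⟨z, hz, rfl⟩ c
      rw [gram_mx L M β hw hΨc hV]
      have h1 := (qf_GS L M hΨc hV σ c).2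
      have h3 := H σ hσ z hz (FF L M c) (FF_cont L M c) (FF_line L M c z) h1
      have h4 : KX (Sum.inl z) = σ ^ 2 * ((2 / Real.pi) ^ 2 * dt Ψ z + κ) := by
        simp only [hKX, Sum.elim_inl]
        rw [indicator_of_mem hz, hKC z hz]
      rw [h4, qf_G L M β hΨc hV]
      have h5 : 0 ≤ ∑ x : Fin L × Fin M, wt β x.2 * ‖c x‖ ^ 2 :=
        Finset.sum_nonneg fun x _ => mul_nonneg (hw _ _).le (by positivity)
      refine h3.trans ?_
      have h6 : 0 ≤ σ ^ 2 * ((2 / Real.pi) ^ 2 * dt Ψ z + κ) := by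
        have := hdet0 z hz
        have := Real.pi_pos
        positivity
      exact mul_le_mul_of_nonneg_left (by linarith) h6)
  rw [gram_mx L M β hw hΨc hV, gram_mx L M β hw hΨc hV, Fintype.card_prod, Fintype.card_fin,
    Fintype.card_fin] at h
  have h7 : ∫ z in Sum.inl '' C, KX z ∂(mx L M β) ≤ ∫ z, KX z ∂(mx L M β) := by
    apply setIntegral_le_integral hKXi
    refine Eventually.of_forall ?_
    rintro (z | x)
    · simp only [hKX, Sum.elim_inl]
      exact indicator_nonneg (fun z _ => by positivity) z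
    · simp [hKX]
  have hint : ∫ z in C, Kf z = σ ^ 2 * ((2 / Real.pi) ^ 2 * (∫ z in C, dt Ψ z) +
      κ * (volume : Measure (Cn 2)).real C) := by
    rw [setIntegral_congr_fun hC.measurableSet hKC, integral_const_mul, integral_add,
      integral_const_mul, setIntegral_const, smul_eq_mul, mul_comm κ]
    · exact (hdetc.const_mul _).continuousOn.integrableOn_compact hC
    · exact continuous_const.continuousOn.integrableOn_compact hC
  rw [hKXint, hint] at h7
  push_cast at h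
  have h8 := mul_le_mul_of_nonneg_left h7 (by positivity : 0 ≤ 2 * t)
  linarith

/-- Cauchy-Schwarz -/
lemma FF_sq (hw : ∀ (β : ℝ) (a : ℕ), 0 < wt β a)
    (hlow : ∀ a : ℕ, 1 / (4 * ((a : ℝ) + 1)) ≤ wt β a) (c : Fin L × Fin M → ℂ) {z : Cn 2}
    (hz : z ∈ Om) :
    ‖FF L M c z‖ ^ 2 ≤ 4 * (L * (M : ℝ) ^ 2) * ∑ x, wt β x.2 * ‖c x‖ ^ 2 := by
  have h1 : ‖FF L M c z‖ ≤ ∑ x, ‖c x‖ := by
    unfold FF
    refine (norm_sum_le _ _).trans (Finset.sum_le_sum fun x _ => ?_)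
    rw [norm_mul]
    exact mul_le_of_le_one_right (norm_nonneg _) (mon_le L M hz x)
  have h2 : (∑ x : Fin L × Fin M, ‖c x‖) ^ 2 ≤
      (∑ x : Fin L × Fin M, (wt β x.2)⁻¹) * ∑ x : Fin L × Fin M, wt β x.2 * ‖c x‖ ^ 2 := by
    have h3 := Finset.sum_mul_sq_le_sq_mul_sq (Finset.univ : Finset (Fin L × Fin M))
      (fun x => Real.sqrt (wt β x.2)⁻¹) (fun x => Real.sqrt (wt β x.2) * ‖c x‖)
    have e1 : ∀ x : Fin L × Fin M, Real.sqrt (wt β x.2)⁻¹ * (Real.sqrt (wt β x.2) * ‖c x‖) =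
        ‖c x‖ := by
      intro x
      rw [← mul_assoc, ← Real.sqrt_mul (inv_nonneg.2 (hw _ _).le), inv_mul_cancel₀ (hw _ _).ne',
        Real.sqrt_one, one_mul]
    have e2 : ∀ x : Fin L × Fin M, Real.sqrt (wt β x.2)⁻¹ ^ 2 = (wt β x.2)⁻¹ := fun x =>
      Real.sq_sqrt (inv_nonneg.2 (hw _ _).le)
    have e3 : ∀ x : Fin L × Fin M, (Real.sqrt (wt β x.2) * ‖c x‖) ^ 2 = wt β x.2 * ‖c x‖ ^ 2 :=
      fun x => by rw [mul_pow, Real.sq_sqrt (hw _ _).le]
    simp only [e1, e2, e3] at h3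
    exact h3
  have h4 : ∑ x : Fin L × Fin M, (wt β x.2)⁻¹ ≤ 4 * (L * (M : ℝ) ^ 2) := by
    have h5 : ∀ x : Fin L × Fin M, (wt β x.2)⁻¹ ≤ 4 * (M : ℝ) := by
      intro x
      have h6 := hlow x.2
      have h7 : (((x.2 : ℕ) : ℝ) + 1) ≤ M := by exact_mod_cast x.2.2
      have h8 : (0 : ℝ) < 4 * (((x.2 : ℕ) : ℝ) + 1) := by positivity
      rw [one_div] at h6
      have h9 := inv_anti₀ (inv_pos.2 h8) h6
      rw [inv_inv] at h9
      linarith
    have h6 := Finset.sum_le_sum fun x (_ : x ∈ (Finset.univ : Finset (Fin L × Fin M))) => h5 x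
    rw [Finset.sum_const, Finset.card_univ, Fintype.card_prod, Fintype.card_fin, Fintype.card_fin,
      nsmul_eq_mul] at h6
    push_cast at h6
    refine h6.trans (le_of_eq ?_)
    ring
  have h5 : 0 ≤ ∑ x : Fin L × Fin M, wt β x.2 * ‖c x‖ ^ 2 :=
    Finset.sum_nonneg fun x _ => mul_nonneg (hw _ _).le (by positivity)
  calc ‖FF L M c z‖ ^ 2 ≤ (∑ x, ‖c x‖) ^ 2 := pow_le_pow_left₀ (norm_nonneg _) h1 2
    _ ≤ _ := h2
    _ ≤ _ := mul_le_mul_of_nonneg_right h4 h5

/-- the initial value -/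
lemma init (hw : ∀ (β : ℝ) (a : ℕ), 0 < wt β a)
    (hlow : ∀ a : ℕ, 1 / (4 * ((a : ℝ) + 1)) ≤ wt β a) {Ψ : Cn 2 → ℝ} (hΨ : Continuous Ψ) {V : ℝ}
    (hV : ∀ z, |Ψ z| ≤ V) :
    Real.log (ND L M β + GS L M Om Ψ 0).det.re - Real.log (ND L M β).det.re ≤
      (L * M) * (Real.log (1 + (volume : Measure (Cn 2)).real Om) +
        Real.log (1 + 100 * (L * (M : ℝ) ^ 2))) := by
  obtain ⟨v, hv⟩ : ∃ v, v = (volume : Measure (Cn 2)).real Om := ⟨_, rfl⟩
  have hv0 : 0 ≤ v := by rw [hv]; exact measureReal_nonneg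
  obtain ⟨r, hr⟩ : ∃ r : ℝ, r = 1 + 4 * (L * (M : ℝ) ^ 2) * v := ⟨_, rfl⟩
  have hr0 : 0 < r := by rw [hr]; positivity
  have hND := ND_posDef L M β hw
  have hrND : ((r : ℂ) • ND L M β).PosDef := hND.smul (by exact_mod_cast hr0)
  have hG0 := (G_posDef L M β hw hΨ hV 0).posSemidef
  have hle : ∀ c, (qf (ND L M β + GS L M Om Ψ 0) c).re ≤ (qf ((r : ℂ) • ND L M β) c).re := by
    intro c
    have e1 : qf ((r : ℂ) • ND L M β) c = (r : ℂ) * qf (ND L M β) c := by
      unfold qf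
      rw [Matrix.smul_mulVec, dotProduct_smul, smul_eq_mul]
    rw [e1, Complex.re_ofReal_mul, qf_ND, Complex.ofReal_re, qf_G L M β hΨ hV]
    obtain ⟨q, hq⟩ : ∃ q : ℝ, q = ∑ x : Fin L × Fin M, wt β x.2 * ‖c x‖ ^ 2 := ⟨_, rfl⟩
    rw [← hq]
    have h2 : ∫ z in Om, ‖FF L M c z‖ ^ 2 * Real.exp (-2 * 0 * Ψ z) ≤
        4 * (L * (M : ℝ) ^ 2) * q * v := by
      have h3 : ‖∫ z in Om, ‖FF L M c z‖ ^ 2 * Real.exp (-2 * 0 * Ψ z)‖ ≤
          4 * (L * (M : ℝ) ^ 2) * q * (volume.restrict Om : Measure (Cn 2)).real univ := by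
        apply norm_integral_le_of_norm_le_const
        rw [ae_restrict_iff' isOpen_Om.measurableSet]
        refine Eventually.of_forall fun z hz => ?_
        rw [mul_zero, zero_mul, Real.exp_zero, mul_one, Real.norm_of_nonneg (by positivity), hq]
        exact FF_sq L M β hw hlow c hz
      rw [measureReal_restrict_apply_univ, ← hv] at h3
      exact (le_abs_self _).trans h3
    rw [hr]
    linarith
  have hdet := det_mono _ _ hrND hG0 hle
  have e2 : ((r : ℂ) • ND L M β).det.re = r ^ (L * M) * (ND L M β).det.re := by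
    rw [Matrix.det_smul, Fintype.card_prod, Fintype.card_fin, Fintype.card_fin,
      ← Complex.ofReal_pow, Complex.re_ofReal_mul]
  rw [e2] at hdet
  obtain ⟨hNDre, -⟩ := Complex.pos_iff.1 hND.det_pos
  obtain ⟨hGre, -⟩ := Complex.pos_iff.1 (G_posDef L M β hw hΨ hV 0).det_pos
  have h3 : Real.log (ND L M β + GS L M Om Ψ 0).det.re ≤
      ((L * M : ℕ) : ℝ) * Real.log r + Real.log (ND L M β).det.re := by
    rw [← Real.log_pow, ← Real.log_mul (pow_pos hr0 _).ne' hNDre.ne']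
    exact Real.log_le_log hGre hdet
  have h4 : Real.log r ≤ Real.log (1 + v) + Real.log (1 + 100 * (L * (M : ℝ) ^ 2)) := by
    rw [← Real.log_mul (by positivity) (by positivity)]
    apply Real.log_le_log hr0
    have h5 : 0 ≤ (L : ℝ) * (M : ℝ) ^ 2 := by positivity
    rw [hr]
    nlinarith [mul_nonneg h5 hv0]
  have h5 := mul_le_mul_of_nonneg_left h4 (by positivity : (0 : ℝ) ≤ ((L * M : ℕ) : ℝ))
  rw [← hv]
  push_cast at h3 h5
  linarith

end

theorem s_grow (hwt : S_wt) : S_grow := by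
  obtain ⟨hw, hlow, -, -⟩ := hwt
  intro Ψ hΨ V hV C hC hCU hpsh t τ ht hτ htC hτC κ hκ
  have hΨc : Continuous Ψ := hΨ.continuous
  obtain ⟨vC, hvC⟩ : ∃ vC, vC = (volume : Measure (Cn 2)).real C := ⟨_, rfl⟩
  have hvC0 : 0 ≤ vC := by rw [hvC]; exact measureReal_nonneg
  obtain ⟨κ', hκ'⟩ : ∃ κ' : ℝ, κ' = κ / (1 + vC) := ⟨_, rfl⟩
  have hκ'0 : 0 < κ' := by rw [hκ']; positivity
  have hκ'v : κ' * vC ≤ κ := by
    rw [hκ', div_mul_eq_mul_div, div_le_iff₀ (by positivity)]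
    nlinarith
  obtain ⟨σ0, hσ0, H⟩ := sharp hΨ hV hC hCU hpsh t τ ht hτ htC hτC κ' hκ'0
  set T := max t τ with hT
  have hT0 : 0 ≤ T := ht.trans (le_max_left _ _)
  have hTu : ∀ z ∈ Om, -T ≤ Ψ z := by
    intro z hz
    by_cases h : z ∈ C
    · have := htC z h
      have := le_max_left t τ
      linarith
    · have := hτC z hz h
      have := le_max_right t τ
      linarith
  obtain ⟨J, hJ⟩ : ∃ J : ℝ, J = (2 / Real.pi) ^ 2 * (∫ z in C, dt Ψ z) := ⟨_, rfl⟩
  have hJ0 : 0 ≤ J := by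
    have h1 : 0 ≤ ∫ z in C, dt Ψ z := setIntegral_nonneg hC.measurableSet fun z hz =>
      dt_nonneg (hpsh z hz)
    have := Real.pi_pos
    rw [hJ]
    positivity
  set M0 : ℕ := ⌈σ0⌉₊ with hM0
  refine ⟨M0 * (2 * T) + Real.log (1 + (volume : Measure (Cn 2)).real Om), ?_⟩
  intro L M N β hL hM hβ
  rw [← hJ]
  -- the single steps
  have hstep : ∀ k ∈ Finset.range N,
      Real.log (ND L M β + GS L M Om Ψ ((k + 1 : ℕ) : ℝ)).det.re -
        Real.log (ND L M β + GS L M Om Ψ (k : ℝ)).det.re ≤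
        (2 * t * (J + κ) * ((k : ℝ) + 1) ^ 2 + 2 * τ * (L * M)) +
          (if k < M0 then 2 * T * (L * M) else 0) := by
    intro k _
    have hk1 : (((k + 1 : ℕ) : ℝ) - 1) = (k : ℝ) := by push_cast; ring
    by_cases hk : k < M0
    · rw [if_pos hk]
      have h1 := crude L M β hw hΨc hV ((k + 1 : ℕ) : ℝ) T hT0 hTu
      rw [hk1] at h1
      have h2 : 0 ≤ 2 * t * (J + κ) * ((k : ℝ) + 1) ^ 2 + 2 * τ * (L * M) := by positivity
      linarith
    · rw [if_neg hk, add_zero]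
      have h1 := H ((k + 1 : ℕ) : ℝ) (by
        have h3 : σ0 ≤ (M0 : ℝ) := Nat.le_ceil _
        have h4 : (M0 : ℝ) ≤ k := by exact_mod_cast not_lt.1 hk
        push_cast
        linarith) L M β hw
      rw [hk1, ← hvC, ← hJ] at h1
      push_cast at h1 ⊢
      refine h1.trans ?_
      have h2 : ((k : ℝ) + 1) ^ 2 * (J + κ' * vC) ≤ ((k : ℝ) + 1) ^ 2 * (J + κ) :=
        mul_le_mul_of_nonneg_left (by linarith) (by positivity)
      have h3 := mul_le_mul_of_nonneg_left h2 (by positivity : 0 ≤ 2 * t)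
      linarith
  have hsum := Finset.sum_le_sum hstep
  rw [Finset.sum_range_sub (fun k : ℕ =>
    Real.log (ND L M β + GS L M Om Ψ (k : ℝ)).det.re)] at hsum
  rw [Finset.sum_add_distrib, Finset.sum_add_distrib, ← Finset.mul_sum, Finset.sum_const,
    Finset.card_range, nsmul_eq_mul] at hsum
  have hind : ∑ k ∈ Finset.range N, (if k < M0 then 2 * T * ((L : ℝ) * M) else 0) ≤
      M0 * (2 * T * (L * M)) := by
    rw [← Finset.sum_filter, Finset.sum_const, nsmul_eq_mul]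
    apply mul_le_mul_of_nonneg_right _ (by positivity)
    have : (Finset.range N).filter (fun k => k < M0) ⊆ Finset.range M0 := by
      intro k hk
      rw [Finset.mem_filter] at hk
      exact Finset.mem_range.2 hk.2
    have := Finset.card_le_card this
    rw [Finset.card_range] at this
    exact_mod_cast this
  have hpow : ∑ k ∈ Finset.range N, ((k : ℝ) + 1) ^ 2 ≤ ((N : ℝ) + 1) ^ 3 / 3 := by
    rw [le_div_iff₀ (by positivity)]
    have := Pool.Agent.H805R2.sum_pow_le 2 N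
    norm_num at this
    linarith
  have hpow' : 2 * t * (J + κ) * ∑ k ∈ Finset.range N, ((k : ℝ) + 1) ^ 2 ≤
      2 * t * (J + κ) * (((N : ℝ) + 1) ^ 3 / 3) :=
    mul_le_mul_of_nonneg_left hpow (by positivity)
  have hinit := init L M β hw (fun a => hlow β a hβ) hΨc hV
  rw [Nat.cast_zero] at hsum
  have e : (L * M : ℝ) * (M0 * (2 * T) + Real.log (1 + (volume : Measure (Cn 2)).real Om) +
      Real.log (1 + 100 * (L * (M : ℝ) ^ 2))) = M0 * (2 * T * (L * M)) +
      (L * M) * (Real.log (1 + (volume : Measure (Cn 2)).real Om) +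
        Real.log (1 + 100 * (L * (M : ℝ) ^ 2))) := by ring
  rw [e]
  linarith

end Pool.Agent.H671.F4
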